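import Pool.Agent.Y481.X.Defs
import Pool.Agent.TH563.UV.Crit3

/-!
# Critical points of one step, with constants uniform in the potential
(helper333, job X-CPUG of helper481; adapted from `Pool/Agent/TH563/UV/Crit2.lean`, `Crit3.lean`)
-/

set_option autoImplicit false

namespace Pool.Agent.Y333.X

open Filter Topology Metric Set
open Pool.Agent.W711.HT hiding XX
open Pool.Agent.W293.HT hiding s_diff1 s_ev2 ds_joint
open Pool.Agent.TH563.UV hiding gh_U dds_diff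
open Pool.Agent.Y481.X
open scoped Real

section

variable {ρ τ c C₀ : ℝ} {s : ℂ → ℂ → ℂ}

theorem s_diff1 (hK : PP ρ τ c C₀ s) {ψ : ℂ} (hψ : ψ ∈ Rc (3 * ρ) (3 * τ)) :
    DifferentiableOn ℂ (fun w => s w ψ) (Rc (3 * ρ) (3 * τ)) := by
  intro w hw
  have h1 : DifferentiableAt ℂ (fun p : ℂ × ℂ => s p.1 p.2) (w, ψ) :=
    hK.san.differentiableAt (((isOpen_Rc _ _).prod (isOpen_Rc _ _)).mem_nhds ⟨hw, hψ⟩)
  have h2 : DifferentiableAt ℂ (fun w : ℂ => (w, ψ)) w := by fun_prop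
  exact (DifferentiableAt.comp (g := fun p : ℂ × ℂ => s p.1 p.2) w h1 h2).differentiableWithinAt

theorem s_ev2 (hK : PP ρ τ c C₀ s) {w ψ : ℂ} (hw : w ∈ Rc (3 * ρ) (3 * τ))
    (hψ : ψ ∈ Rc (3 * ρ) (3 * τ)) : s w (-ψ) = s w ψ := by
  rw [hK.sym w hw (-ψ) (neg_mem_Rc hψ), hK.ev ψ hψ w hw, hK.sym ψ hψ w hw]

/-- joint differentiability of `∂_w s(w, ψ)` -/
theorem ds_joint (hK : PP ρ τ c C₀ s) :
    DifferentiableOn ℂ (fun p : ℂ × ℂ => deriv (fun w => s w p.2) p.1)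
      (Rc (3 * ρ) (3 * τ) ×ˢ Rc (3 * ρ) (3 * τ)) := by
  have hU := (isOpen_Rc (3 * ρ) (3 * τ)).prod (isOpen_Rc (3 * ρ) (3 * τ))
  have h1 := Pool.Agent.Helper540.differentiableOn_fderiv_apply hU hK.san ((1 : ℂ), (0 : ℂ))
  refine h1.congr ?_
  rintro ⟨w, ψ⟩ hp
  have h2 : DifferentiableAt ℂ (fun p : ℂ × ℂ => s p.1 p.2) (w, ψ) :=
    hK.san.differentiableAt (hU.mem_nhds hp)
  have h3 : HasDerivAt (fun w : ℂ => (w, ψ)) ((1 : ℂ), (0 : ℂ)) w :=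
    (hasDerivAt_id w).prodMk (hasDerivAt_const w ψ)
  exact (h2.hasFDerivAt.comp_hasDerivAt w h3).deriv

/-- the bounds of the second derivatives -/
theorem gh_U (hK : PP ρ τ c C₀ s) {ε₀ : ℝ} (hε₁ : ε₀ ≤ 1)
    (hε₂ : ε₀ ≤ c * τ ^ 2 / 16)
    (hC₀ : ∀ ψ ∈ Rc (3 * ρ) (3 * τ), ∀ ψ' ∈ Rc (3 * ρ) (3 * τ), ‖s ψ ψ'‖ ≤ C₀)
    {t : ℝ} {F : ℂ → ℂ} (ht0 : 0 ≤ t) (hF : DifferentiableOn ℂ F (Rc (3 * ρ) (3 * τ)))
    (hev : ∀ ψ ∈ Rc (3 * ρ) (3 * τ), F (-ψ) = F ψ)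
    (hcl : ∀ ψ ∈ Rc (3 * ρ) (3 * τ), ‖F ψ - F 0 - t * (s 0 ψ - s 0 0)‖ ≤ t * ε₀) :
    (∀ ψ ∈ Rc (3 * ρ) (3 * τ),
      GH ρ τ (c / 2 * (t + 1)) (8 * (1 + 3 * C₀) / τ ^ 2 * (t + 1)) (fun w => F w + s w ψ)) ∧
    GH ρ τ (c / 2 * t) (8 * (1 + 3 * C₀) / τ ^ 2 * t) F := by
  have hρ0 := hK.hρ.1
  have hτ0 := hK.hτ.1
  have hτρ := hK.hτ.2
  have hc := hK.hc
  have hU := isOpen_Rc (3 * ρ) (3 * τ)
  have h0 : (0 : ℂ) ∈ Rc (3 * ρ) (3 * τ) := zero_mem_Rc (by linarith) (by linarith)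
  have hC00 : 0 ≤ C₀ := (norm_nonneg _).trans (hC₀ 0 h0 0 h0)
  have hsub : Rc (2 * ρ) (2 * τ) ⊆ Rc (3 * ρ) (3 * τ) := Rc_mono (by linarith) (by linarith)
  -- F = (F 0 + t (s(., 0) - s 0 0)) + E
  set E : ℂ → ℂ := fun w => F w - F 0 - t * (s w 0 - s 0 0) with hE
  have hEd : DifferentiableOn ℂ E (Rc (3 * ρ) (3 * τ)) :=
    (hF.sub_const _).sub (((s_diff1 hK h0).sub_const _).const_mul _)
  have hEb : ∀ w ∈ Rc (3 * ρ) (3 * τ), ‖E w‖ ≤ t * ε₀ := by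
    intro w hw
    have := hcl w hw
    rwa [hK.sym 0 h0 w hw] at this
  have hFdd : ∀ w ∈ Rc (2 * ρ) (2 * τ), (deriv (deriv F) w).re ≤ -(c / 2 * t) := by
    intro w hw
    have e1 : deriv (deriv F) w = deriv (deriv fun z => (F 0 + t * (s z 0 - s 0 0)) + E z) w :=
      dd_congr hU (fun z _ => by simp only [hE]; ring) (hsub hw)
    have e2 := dd_add hU (f := fun z => F 0 + t * (s z 0 - s 0 0)) (g := E)
      ((((s_diff1 hK h0).sub_const _).const_mul _).const_add _) hEd (hsub hw)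
    rw [e1, e2, dd_aff, Complex.add_re, Complex.re_ofReal_mul]
    have e3 := hK.conc w (hsub hw) 0 h0
    have e4 := (Complex.re_le_norm _).trans (cauchy2 hτ0 hτρ hEd hEb hw)
    have e5 : 8 * (t * ε₀) / τ ^ 2 ≤ c / 2 * t := by
      rw [div_le_iff₀ (by positivity)]
      have := mul_le_mul_of_nonneg_left hε₂ ht0
      linarith
    have e6 : t * (deriv (deriv fun z => s z 0) w).re ≤ t * (-c) :=
      mul_le_mul_of_nonneg_left e3 ht0
    linarith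
  have hFb : ∀ w ∈ Rc (3 * ρ) (3 * τ), ‖F w - F 0‖ ≤ t * (1 + 2 * C₀) := by
    intro w hw
    have e1 : F w - F 0 = (F w - F 0 - t * (s 0 w - s 0 0)) + t * (s 0 w - s 0 0) := by ring
    rw [e1]
    have e2 : ‖(t : ℂ) * (s 0 w - s 0 0)‖ ≤ t * (2 * C₀) := by
      rw [norm_mul, Complex.norm_real, Real.norm_eq_abs, abs_of_nonneg ht0]
      have e3 : ‖s 0 w - s 0 0‖ ≤ C₀ + C₀ :=
        (norm_sub_le _ _).trans (add_le_add (hC₀ 0 h0 w hw) (hC₀ 0 h0 0 h0))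
      exact mul_le_mul_of_nonneg_left (by linarith) ht0
    refine (norm_add_le _ _).trans ?_
    have e4 : t * ε₀ ≤ t * 1 := mul_le_mul_of_nonneg_left hε₁ ht0
    linarith [hcl w hw]
  refine ⟨fun ψ hψ => ⟨?_, ?_, ?_, ?_⟩, ⟨hF, hev, hFdd, ?_⟩⟩
  · exact hF.add (s_diff1 hK hψ)
  · intro w hw
    show F (-w) + s (-w) ψ = F w + s w ψ
    rw [hev w hw, hK.ev w hw ψ hψ]
  · intro w hw
    rw [dd_add hU hF (s_diff1 hK hψ) (hsub hw), Complex.add_re]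
    have e1 := hFdd w hw
    have e2 := hK.conc w (hsub hw) ψ hψ
    linarith
  · intro w hw
    have e1 : deriv (deriv fun w => F w + s w ψ) w =
        deriv (deriv fun w => -F 0 + 1 * ((F w + s w ψ) - 0)) w := by
      rw [dd_aff, one_mul]
    rw [e1]
    refine (cauchy2 (B := (1 + 3 * C₀) * (t + 1)) hτ0 hτρ ?_ ?_ hw).trans (le_of_eq (by ring))
    · exact (((hF.add (s_diff1 hK hψ)).sub_const _).const_mul _).const_add _
    · intro z hz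
      have e2 : -F 0 + 1 * ((F z + s z ψ) - 0) = (F z - F 0) + s z ψ := by ring
      rw [e2]
      refine (norm_add_le _ _).trans ?_
      have e3 := hFb z hz
      have e4 := hC₀ z hz ψ hψ
      have e5 : 0 ≤ t * C₀ := mul_nonneg ht0 hC00
      nlinarith
  · intro w hw
    have e1 : deriv (deriv F) w = deriv (deriv fun w => -F 0 + 1 * (F w - 0)) w := by
      rw [dd_aff, one_mul]
    rw [e1]
    refine (cauchy2 (B := (1 + 3 * C₀) * t) hτ0 hτρ ?_ ?_ hw).trans (le_of_eq (by ring))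
    · exact ((hF.sub_const _).const_mul _).const_add _
    · intro z hz
      have e2 : -F 0 + 1 * (F z - 0) = F z - F 0 := by ring
      rw [e2]
      have e3 := hFb z hz
      have e5 : 0 ≤ t * C₀ := mul_nonneg ht0 hC00
      nlinarith

/-- differentiability of the second derivative at `0` in the parameter -/
theorem dds_diff (hK : PP ρ τ c C₀ s) :
    DifferentiableOn ℂ (fun ψ => deriv (deriv (fun w => s w ψ)) 0) (Rc (3 * ρ) (3 * τ)) := by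
  have hρ0 := hK.hρ.1
  have hτ0 := hK.hτ.1
  have hU := (isOpen_Rc (3 * ρ) (3 * τ)).prod (isOpen_Rc (3 * ρ) (3 * τ))
  have h0 : (0 : ℂ) ∈ Rc (3 * ρ) (3 * τ) := zero_mem_Rc (by linarith) (by linarith)
  have h1 := Pool.Agent.Helper540.differentiableOn_fderiv_apply hU (ds_joint hK) ((1 : ℂ), (0 : ℂ))
  have h2 : DifferentiableOn ℂ (fun ψ : ℂ => ((0 : ℂ), ψ)) (Rc (3 * ρ) (3 * τ)) :=
    ((differentiable_const (0 : ℂ)).prodMk differentiable_id).differentiableOn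
  have h3 := h1.comp h2 (fun ψ hψ => ⟨h0, hψ⟩)
  refine h3.congr ?_
  intro ψ hψ
  have h4 : DifferentiableAt ℂ (fun p : ℂ × ℂ => deriv (fun w => s w p.2) p.1) (0, ψ) :=
    (ds_joint hK).differentiableAt (hU.mem_nhds ⟨h0, hψ⟩)
  have h5 : HasDerivAt (fun w : ℂ => (w, ψ)) ((1 : ℂ), (0 : ℂ)) 0 :=
    (hasDerivAt_id _).prodMk (hasDerivAt_const _ ψ)
  exact (h4.hasFDerivAt.comp_hasDerivAt (0 : ℂ) h5).deriv

end


theorem cpug (hFIX : S_FIX) : S_CPUG := by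
  intro ρ τ κ c C₀ r₀ hρ0 hρ1 hτ0 hτρ hκ hc hC00 hr₀
  have hpi := Real.pi_pos
  have hU := isOpen_Rc (3 * ρ) (3 * τ)
  have h0 : (0 : ℂ) ∈ Rc (3 * ρ) (3 * τ) := zero_mem_Rc (by linarith) (by linarith)
  obtain ⟨c', hc'⟩ : ∃ c' : ℝ, c' = c / 2 := ⟨_, rfl⟩
  have hc'0 : 0 < c' := by rw [hc']; positivity
  obtain ⟨C', hC'⟩ : ∃ C' : ℝ, C' = 8 * (1 + 3 * C₀) / τ ^ 2 := ⟨_, rfl⟩
  have hC'1 : 1 ≤ C' := by
    rw [hC', le_div_iff₀ (by positivity)]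
    nlinarith
  have hC'0 : 0 < C' := by linarith
  obtain ⟨ε₀, hε₀⟩ : ∃ ε₀ : ℝ, ε₀ = min (min (κ / 16) (c * τ ^ 2 / 16)) 1 := ⟨_, rfl⟩
  have hε0 : 0 < ε₀ := by
    rw [hε₀]; exact lt_min (lt_min (by positivity) (by positivity)) one_pos
  have hε1 : ε₀ ≤ 1 := by rw [hε₀]; exact min_le_right _ _
  have hε2 : ε₀ ≤ c * τ ^ 2 / 16 := by rw [hε₀]; exact (min_le_left _ _).trans (min_le_right _ _)
  have hε3 : ε₀ ≤ κ / 16 := by rw [hε₀]; exact (min_le_left _ _).trans (min_le_left _ _)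
  obtain ⟨R, hR, L₀, hL₀, hex⟩ := exU hFIX hτ0 hτρ hc'0 hC'1 hU
  obtain ⟨R', hR'⟩ : ∃ R' : ℝ, R' = R ^ 2 / 2 + R + C' * R ^ 2 := ⟨_, rfl⟩
  have hR'0 : 0 < R' := by rw [hR']; positivity
  obtain ⟨S, hS⟩ : ∃ S : ℝ, S = 2 * (C' * R ^ 2 / 4 + C' ^ 2 * R ^ 2 + R') := ⟨_, rfl⟩
  have hS0 : 0 < S := by rw [hS]; positivity
  obtain ⟨L₁, hL₁⟩ : ∃ L₁ : ℝ, L₁ = L₀ + (R / τ + 1) + (S / (c' * ρ ^ 2) + 1) + 16 * R' / κ +
    2 * R' / ε₀ + R / r₀ := ⟨_, rfl⟩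
  have v1 : 0 < R / τ := by positivity
  have v2 : 0 < S / (c' * ρ ^ 2) := by positivity
  have v3 : 0 < 16 * R' / κ := by positivity
  have v4 : 0 < 2 * R' / ε₀ := by positivity
  have v5 : 0 < R / r₀ := by positivity
  have hL₁0 : 0 < L₁ := by linarith
  refine ⟨ε₀, 2 * π * L₁, hε0, hε3, by positivity, fun s hK => ⟨?_, ?_⟩⟩
  · intro t F ht hF hev hcl x hx
    have g := (gh_U (t := (t : ℝ)) hK hε1 hε2 hK.sbd (Nat.cast_nonneg t) hF hev (by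
      intro ψ hψ
      have := hcl ψ hψ
      rwa [Complex.ofReal_natCast])).2
    have h1 := real_axis g hτ0 hρ0 x hx
    have h2 : c / 4 * x ^ 2 * 1 ≤ c / 4 * x ^ 2 * t :=
      mul_le_mul_of_nonneg_left (by exact_mod_cast ht) (by positivity)
    linarith
  intro t F hF hev hcl a
  obtain ⟨gh1, gh2⟩ := gh_U (t := (t : ℝ)) hK hε1 hε2 hK.sbd (Nat.cast_nonneg t) hF hev (by
      intro ψ hψ
      have := hcl ψ hψ
      rwa [Complex.ofReal_natCast])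
  rw [← hc', ← hC'] at gh1 gh2
  obtain ⟨A, hA⟩ : ∃ A : ℝ, A = a / (2 * π) := ⟨_, rfl⟩
  have hbig : ∀ n : ℕ, (2 * π * L₁) ^ 2 ≤ (n : ℝ) ^ 2 + (a : ℝ) ^ 2 → L₁ ≤ |A| + n := by
    intro n hn
    have h1 : (2 * π * L₁) ^ 2 ≤ ((n : ℝ) + |(a : ℝ)|) ^ 2 := by
      have : (a : ℝ) ^ 2 = |(a : ℝ)| ^ 2 := (sq_abs _).symm
      rw [this] at hn
      have : 0 ≤ (n : ℝ) * |(a : ℝ)| := by positivity
      nlinarith
    have h2 : 2 * π * L₁ ≤ (n : ℝ) + |(a : ℝ)| := by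
      apply le_of_sq_le_sq h1
      positivity
    have h3 : |A| = |(a : ℝ)| / (2 * π) := by
      rw [hA, abs_div, abs_of_pos (by positivity : (0 : ℝ) < 2 * π)]
    have h4 : (n : ℝ) ≤ 2 * π * n := by
      have : (1 : ℝ) ≤ 2 * π := by linarith [Real.pi_gt_three]
      have h5 : (0 : ℝ) ≤ n := Nat.cast_nonneg n
      nlinarith
    have h5 : 2 * π * (|A| + n) = |(a : ℝ)| + 2 * π * n := by
      rw [h3]; field_simp
    have h6 : 2 * π * L₁ ≤ 2 * π * (|A| + n) := by linarith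
    exact le_of_mul_le_mul_left h6 (by positivity)
  have hcons : ∀ L : ℝ, L₁ ≤ L → L₀ ≤ L ∧ R / L < τ ∧
      2 * (C' * R ^ 2 / 4 + C' ^ 2 * R ^ 2 + (R ^ 2 / 2 + R + C' * R ^ 2)) / L < c' * ρ ^ 2 ∧
      R' / L ≤ κ / 16 ∧ R' / L ≤ ε₀ / 2 ∧ R / L ≤ r₀ := by
    intro L hL
    have hLp : 0 < L := by linarith
    refine ⟨by linarith, ?_, ?_, ?_, ?_, ?_⟩
    · have h1 : R / τ < L := by linarith
      rw [div_lt_iff₀ hτ0] at h1
      rw [div_lt_iff₀ hLp]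
      linarith
    · rw [← hR', ← hS]
      have h1 : S / (c' * ρ ^ 2) < L := by linarith
      rw [div_lt_iff₀ (by positivity)] at h1
      rw [div_lt_iff₀ hLp]
      linarith
    · have h1 : 16 * R' / κ ≤ L := by linarith
      rw [div_le_iff₀ hκ] at h1
      rw [div_le_iff₀ hLp]
      linarith
    · have h1 : 2 * R' / ε₀ ≤ L := by linarith
      rw [div_le_iff₀ hε0] at h1
      rw [div_le_iff₀ hLp]
      linarith
    · have h1 : R / r₀ ≤ L := by linarith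
      rw [div_le_iff₀ hr₀] at h1
      rw [div_le_iff₀ hLp]
      linarith
  have hsum : ∀ ψ ∈ Rc (3 * ρ) (3 * τ), ∀ w ∈ Rc (3 * ρ) (3 * τ),
      deriv (fun w => F w + s w ψ) w = deriv F w + deriv (fun w => s w ψ) w := by
    intro ψ hψ w hw
    exact deriv_fun_add (hF.differentiableAt (hU.mem_nhds hw))
      ((s_diff1 hK hψ).differentiableAt (hU.mem_nhds hw))
  have hballsub : ball (0 : ℂ) τ ⊆ Rc (3 * ρ) (3 * τ) := fun w hw =>
    Rc_mono (by linarith) (by linarith) (mem_Rc_of_norm hτρ (by rwa [mem_ball_zero_iff] at hw))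
  refine ⟨?_, ?_⟩
  · intro hbg
    have hL := hbig (t + 1) hbg
    rw [Nat.cast_add, Nat.cast_one] at hL
    obtain ⟨L, hLe⟩ : ∃ L : ℝ, L = |A| + ((t : ℝ) + 1) := ⟨_, rfl⟩
    rw [← hLe] at hL
    obtain ⟨k0, k1, k2, k3, k4, k5⟩ := hcons L hL
    have hLp : 0 < L := by linarith
    have ht1 : (1 : ℝ) ≤ (t : ℝ) + 1 := by linarith [(Nat.cast_nonneg t : (0 : ℝ) ≤ t)]
    obtain ⟨zs, hzd, hz⟩ := hex ((t : ℝ) + 1) (fun ψ w => F w + s w ψ) ht1 gh1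
      (by
        have e1 : DifferentiableOn ℂ (fun p : ℂ × ℂ => deriv F p.1)
            (ball 0 τ ×ˢ Rc (3 * ρ) (3 * τ)) :=
          (hF.deriv hU).comp differentiableOn_fst (fun p hp => hballsub hp.1)
        have e2 := (ds_joint hK).mono (prod_mono_left (t := Rc (3 * ρ) (3 * τ)) hballsub)
        refine (e1.add e2).congr ?_
        rintro ⟨w, ψ⟩ ⟨hw, hψ⟩
        exact hsum ψ hψ w (hballsub hw))
      (by
        refine ((differentiableOn_const (deriv (deriv F) 0)).add (dds_diff hK)).congr ?_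
        intro ψ hψ
        exact dd_add hU hF (s_diff1 hK hψ) h0)
      A (by rw [← hLe]; exact k0)
    rw [← hLe] at hz
    have hz3 : ∀ ψ ∈ Rc (3 * ρ) (3 * τ), zs ψ ∈ Rc (3 * ρ) (3 * τ) := by
      intro ψ hψ
      apply hballsub
      rw [mem_ball_zero_iff]
      exact (hz ψ hψ).1.trans_lt k1
    have hcr : ∀ ψ ∈ Rc (3 * ρ) (3 * τ),
        Complex.I * A * zs ψ + Complex.I + (deriv F (zs ψ) + deriv (fun w => s w ψ) (zs ψ)) = 0 := by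
      intro ψ hψ
      rw [← hsum ψ hψ _ (hz3 ψ hψ)]
      exact (hz ψ hψ).2.1
    have hprops : ∀ ψ ∈ Rc (3 * ρ) (3 * τ), _ := fun ψ hψ =>
      crit_propsU ht1 (gh1 ψ hψ) hτ0 hτρ hρ1 hc'0 hC'1 a A hA hR (by rw [← hLe]; exact k1)
        (by rw [← hLe]; exact k2) (zs ψ) (by rw [← hLe]; exact (hz ψ hψ).1) (hz ψ hψ).2.1
    rw [← hLe] at hprops
    have hcr' : ∀ ψ ∈ Rc (3 * ρ) (3 * τ), Complex.I * a * zs ψ / (2 * π) + Complex.I +
        deriv F (zs ψ) + deriv (fun w => s w ψ) (zs ψ) = 0 := by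
      intro ψ hψ
      rw [← hcr ψ hψ, hA]
      push_cast
      ring
    have hFp : ∀ ψ ∈ Rc (3 * ρ) (3 * τ),
        HasDerivAt (fun ψ => qq a F (zs ψ) + s (zs ψ) ψ) (deriv (fun w => s (zs ψ) w) ψ) ψ := by
      intro ψ hψ
      have hzψ := hz3 ψ hψ
      have e1 : HasDerivAt zs (deriv zs ψ) ψ :=
        (hzd.differentiableAt (hU.mem_nhds hψ)).hasDerivAt
      have e2 : HasDerivAt (fun ψ => qq a F (zs ψ))
          ((Complex.I * a * zs ψ / (2 * π) + Complex.I + deriv F (zs ψ)) * deriv zs ψ) ψ :=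
        HasDerivAt.comp ψ (hasDerivAt_qq a (hF.differentiableAt (hU.mem_nhds hzψ))) e1
      have e3 : DifferentiableAt ℂ (fun p : ℂ × ℂ => s p.1 p.2) (zs ψ, ψ) :=
        hK.san.differentiableAt ((hU.prod hU).mem_nhds ⟨hzψ, hψ⟩)
      have e4 : HasDerivAt (fun ψ => s (zs ψ) ψ)
          (fderiv ℂ (fun p : ℂ × ℂ => s p.1 p.2) (zs ψ, ψ) (deriv zs ψ, 1)) ψ :=
        HasFDerivAt.comp_hasDerivAt (l := fun p : ℂ × ℂ => s p.1 p.2) (f := fun ψ => (zs ψ, ψ)) ψ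
          e3.hasFDerivAt (e1.prodMk (hasDerivAt_id ψ))
      have e5 : fderiv ℂ (fun p : ℂ × ℂ => s p.1 p.2) (zs ψ, ψ) (1, 0) =
          deriv (fun w => s w ψ) (zs ψ) :=
        ((e3.hasFDerivAt.comp_hasDerivAt (zs ψ)
          ((hasDerivAt_id (zs ψ)).prodMk (hasDerivAt_const (zs ψ) ψ))).deriv).symm
      have e6 : fderiv ℂ (fun p : ℂ × ℂ => s p.1 p.2) (zs ψ, ψ) (0, 1) =
          deriv (fun w => s (zs ψ) w) ψ :=
        ((e3.hasFDerivAt.comp_hasDerivAt ψ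
          ((hasDerivAt_const ψ (zs ψ)).prodMk (hasDerivAt_id ψ))).deriv).symm
      have e7 : ((deriv zs ψ, 1) : ℂ × ℂ) = deriv zs ψ • ((1, 0) : ℂ × ℂ) + (0, 1) := by
        ext <;> simp
      refine (e2.add e4).congr_deriv ?_
      rw [e7, map_add, map_smul, e5, e6, smul_eq_mul]
      linear_combination (deriv zs ψ) * (hcr' ψ hψ)
    have hest : ∀ ψ ∈ Rc (3 * ρ) (3 * τ),
        ‖(qq a F (zs ψ) + s (zs ψ) ψ) - F 0 - s 0 ψ‖ ≤ R' / L := by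
      intro ψ hψ
      have e1 := (hprops ψ hψ).2.2.2
      have e2 : qq a (fun w => F w + s w ψ) (zs ψ) - (F 0 + s 0 ψ) =
          (qq a F (zs ψ) + s (zs ψ) ψ) - F 0 - s 0 ψ := by
        unfold qq
        ring
      rw [← e2, hR']
      exact e1
    refine ⟨fun ψ => qq a F (zs ψ) + s (zs ψ) ψ, zs, ?_, hzd, ?_, ?_,
      fun ψ hψ => (hest ψ hψ).trans k3, ?_⟩
    · intro ψ hψ
      exact (hFp ψ hψ).differentiableAt.differentiableWithinAt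
    · intro ψ hψ
      have hψ' := neg_mem_Rc hψ
      have e1 : zs (-ψ) = zs ψ := by
        refine (hz ψ hψ).2.2 _ (hz (-ψ) hψ').1 ?_
        have e2 := (hz (-ψ) hψ').2.1
        rw [hsum (-ψ) hψ' _ (hz3 (-ψ) hψ')] at e2
        rw [hsum ψ hψ _ (hz3 (-ψ) hψ')]
        have e3 : deriv (fun w => s w (-ψ)) (zs (-ψ)) = deriv (fun w => s w ψ) (zs (-ψ)) :=
          d_congr hU (fun w hw => s_ev2 hK hw hψ) (hz3 (-ψ) hψ')
        rw [e3] at e2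
        exact e2
      show qq a F (zs (-ψ)) + s (zs (-ψ)) (-ψ) = qq a F (zs ψ) + s (zs ψ) ψ
      rw [e1, s_ev2 hK (hz3 ψ hψ) hψ]
    · intro ψ hψ
      have e1 := hest ψ hψ
      have e2 := hest 0 h0
      have e3 : (qq a F (zs ψ) + s (zs ψ) ψ) - (qq a F (zs 0) + s (zs 0) 0) -
          (s 0 ψ - s 0 0) = ((qq a F (zs ψ) + s (zs ψ) ψ) - F 0 - s 0 ψ) -
            ((qq a F (zs 0) + s (zs 0) 0) - F 0 - s 0 0) := by ring
      show ‖(qq a F (zs ψ) + s (zs ψ) ψ) - (qq a F (zs 0) + s (zs 0) 0) -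
          (s 0 ψ - s 0 0)‖ ≤ ε₀
      rw [e3]
      refine (norm_sub_le _ _).trans ?_
      linarith
    · intro ψ hψ
      obtain ⟨p1, p2, p3, -⟩ := hprops ψ hψ
      exact ⟨⟨p1, p2, (hz ψ hψ).1.trans k5⟩, p3, hcr' ψ hψ, rfl, hFp ψ hψ⟩
  · intro ht1 hbg
    have hL := hbig t hbg
    obtain ⟨L, hLe⟩ : ∃ L : ℝ, L = |A| + (t : ℝ) := ⟨_, rfl⟩
    rw [← hLe] at hL
    obtain ⟨k0, k1, k2, k3, k4, k5⟩ := hcons L hL
    have hLp : 0 < L := by linarith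
    have ht1' : (1 : ℝ) ≤ (t : ℝ) := by exact_mod_cast ht1
    obtain ⟨zs, hzd, hz⟩ := hex (t : ℝ) (fun _ w => F w) ht1' (fun ψ _ => gh2)
      ((hF.deriv hU).comp differentiableOn_fst (fun p hp => hballsub hp.1))
      (differentiableOn_const _) A (by rw [← hLe]; exact k0)
    rw [← hLe] at hz
    obtain ⟨hz1, hz2, -⟩ := hz 0 h0
    obtain ⟨p1, p2, p3, p4⟩ := crit_propsU ht1' gh2 hτ0 hτρ hρ1 hc'0 hC'1 a A hA hR
      (by rw [← hLe]; exact k1) (by rw [← hLe]; exact k2) (zs 0) (by rw [← hLe]; exact hz1) hz2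
    rw [← hLe, ← hR'] at p4
    refine ⟨zs 0, ⟨p1, p2, hz1.trans k5⟩, p3, ?_, p4.trans k3⟩
    refine Eq.trans ?_ hz2
    rw [hA]
    push_cast
    ring


/-- critical points of one step, uniformly in the potential -/
theorem f_cpug : S_CPUG := cpug Pool.Agent.W19.HTFix.task

end Pool.Agent.Y333.X
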